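import Pool.Agent.Helper51.PS.Cl

/-!
# MP_175197_nt, project PT: definitions
-/

set_option autoImplicit false

namespace Pool.Agent.Helper51.PT

/-- at least two different prime factors `> K` -/
def Two (K n : ℕ) : Prop :=
  ∃ p r : ℕ, p.Prime ∧ r.Prime ∧ p ≠ r ∧ K < p ∧ K < r ∧ p ∣ n ∧ r ∣ n

end Pool.Agent.Helper51.PT
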