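import Pool.Agent.Helper51.PS.Basic
import Pool.Agent.Helper51.PS.Design
import Pool.Agent.Helper51.PT.Cl

/-!
# MP_175197_nt, project PT: sets of integers such that every prime `> K` divides at most `K` of those
members which have another prime factor `> K`
-/

set_option autoImplicit false

namespace Pool.Agent.Helper51.PT

open Finset
open Pool.Agent.Helper9.PF
open Pool.Agent.Helper51.BP (Th FR aR)
open Pool.Agent.Helper51.BR (rough fR gR FR_eq fR_mul card_pow_le)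
open Pool.Agent.Helper51.PS (Sm card_sm_le split_all)

/-- the sets of the project -/
structure Good (A : Set ℕ) (K : ℕ) : Prop where
  two : 2 ≤ K
  pos : ∀ n ∈ A, 0 < n
  mult : ∀ p : ℕ, p.Prime → K < p → ∀ S : Finset ℕ,
    (∀ n ∈ S, n ∈ A ∧ p ∣ n ∧ Two K n) → S.card ≤ K

/-- the form of a number with at most one prime factor `> K` -/
theorem one_form {K n : ℕ} (hn : 0 < n) (h : ¬ Two K n) :
    ∃ s t, n = s * t ∧ 0 < s ∧ Sm K s ∧ (t = 1 ∨ IsPrimePow t) ∧
      ∀ p : ℕ, p.Prime → p ∣ n → K < p → ∃ k, 0 < k ∧ t = p ^ k := by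
  obtain ⟨s, w, h1, h2, h3, h4⟩ := split_all K n hn
  have hw0 : w ≠ 0 := by
    rintro rfl
    rw [mul_zero] at h1
    omega
  have hwn : w ∣ n := h1 ▸ dvd_mul_left w s
  have key : ∀ p : ℕ, p.Prime → p ∣ w → ∃ k, 0 < k ∧ w = p ^ k := by
    intro p hp hpw
    have h5 : w = p ^ w.primeFactorsList.length :=
      Nat.eq_prime_pow_of_unique_prime_dvd hw0 fun {d} hd hdw => by
        by_contra hne
        exact h ⟨d, p, hd, hp, hne, h4 d hd hdw, h4 p hp hpw, hdw.trans hwn, hpw.trans hwn⟩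
    refine ⟨w.primeFactorsList.length, ?_, h5⟩
    rcases Nat.eq_zero_or_pos w.primeFactorsList.length with h6 | h6
    · rw [h6, pow_zero] at h5
      rw [h5] at hpw
      have := Nat.le_of_dvd one_pos hpw
      have := hp.two_le
      omega
    · exact h6
  refine ⟨s, w, h1, h2, h3, ?_, ?_⟩
  · by_cases hw1 : w = 1
    · exact Or.inl hw1
    · right
      obtain ⟨p, hp, hpw⟩ := Nat.exists_prime_and_dvd hw1
      obtain ⟨k, hk, hwk⟩ := key p hp hpw
      rw [hwk]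
      exact hp.isPrimePow.pow hk.ne'
  · intro p hp hpn hKp
    refine key p hp ?_
    rw [h1] at hpn
    rcases (Nat.Prime.dvd_mul hp).1 hpn with h5 | h5
    · have := h3 p hp h5
      omega
    · exact h5

/-- the number of the divisors with at most one prime factor `> K` -/
theorem card_one_le (K m : ℕ) (hm : m ≠ 0) (S : Finset ℕ) (hS : ∀ n ∈ S, n ∣ m ∧ ¬ Two K n) :
    S.card ≤ (Nat.log 2 m + 1) ^ (K + 1) := by
  classical
  obtain ⟨PP, hPP⟩ : ∃ PP, PP = m.divisors.filter fun n => IsPrimePow n := ⟨_, rfl⟩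
  obtain ⟨SS, hSS⟩ : ∃ SS, SS = m.divisors.filter fun n => Sm K n := ⟨_, rfl⟩
  have h1 : PP.card ≤ Nat.log 2 m := by
    refine card_pow_le m hm _ fun n hn => ?_
    rw [hPP, mem_filter] at hn
    exact ⟨hn.2, Nat.dvd_of_mem_divisors hn.1⟩
  have h1' : SS.card ≤ (Nat.log 2 m + 1) ^ K := by
    refine card_sm_le K m hm _ fun n hn => ?_
    rw [hSS, mem_filter] at hn
    exact ⟨Nat.dvd_of_mem_divisors hn.1, hn.2⟩
  have h2 : S ⊆ (SS ×ˢ insert 1 PP).image fun x => x.1 * x.2 := by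
    intro n hn
    obtain ⟨hnm, hn2⟩ := hS n hn
    have hn0 : 0 < n := Nat.pos_of_dvd_of_pos hnm (Nat.pos_of_ne_zero hm)
    obtain ⟨s, t, hst, hs0, hs, ht, -⟩ := one_form hn0 hn2
    rw [mem_image]
    refine ⟨(s, t), ?_, hst.symm⟩
    rw [mem_product, hSS, mem_filter, Nat.mem_divisors, mem_insert, hPP, mem_filter,
      Nat.mem_divisors]
    refine ⟨⟨⟨(hst ▸ dvd_mul_right s t : s ∣ n).trans hnm, hm⟩, hs⟩, ?_⟩
    rcases ht with ht | ht
    · exact Or.inl ht
    · exact Or.inr ⟨⟨(hst ▸ dvd_mul_left t s : t ∣ n).trans hnm, hm⟩, ht⟩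
  refine (card_le_card h2).trans (card_image_le.trans ?_)
  rw [card_product, pow_succ]
  refine Nat.mul_le_mul h1' ((card_insert_le _ _).trans ?_)
  omega

open Classical in
/-- the number of the members of `A` dividing `m` -/
theorem card_le {A : Set ℕ} {K : ℕ} (hA : Good A K) (m : ℕ)
    (S : Finset ℕ) (hS : ∀ n ∈ S, n ∈ A ∧ n ∣ m) (hm : m ≠ 0) :
    S.card ≤ (3 * K) * (Nat.log 2 m + 1) ^ (K + 1) := by
  have hK1 : 1 ≤ K := by
    have := hA.two
    omega
  have h0 : (S.filter fun n => Two K n).card ≤ K * Nat.log 2 m := by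
    obtain ⟨T, hT⟩ : ∃ T, T = S.filter fun n => Two K n := ⟨_, rfl⟩
    rw [← hT]
    have hTS : ∀ n ∈ T, n ∈ A ∧ n ∣ m ∧ Two K n := by
      intro n hn
      rw [hT, mem_filter] at hn
      obtain ⟨h1, h2⟩ := hS n hn.1
      exact ⟨h1, h2, hn.2⟩
    have h1 : T ⊆ (m.primeFactors.filter fun p => K < p).biUnion
        fun p => T.filter fun n => p ∣ n := by
      intro n hn
      obtain ⟨h2, h3, h4⟩ := hTS n hn
      rw [mem_biUnion]
      obtain ⟨p, r, hp, hr, hpr, hKp, hKr, hpn, hrn⟩ := h4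
      exact ⟨p, mem_filter.2 ⟨Nat.mem_primeFactors.2 ⟨hp, hpn.trans h3, hm⟩, hKp⟩,
        mem_filter.2 ⟨hn, hpn⟩⟩
    have h2 : T.card ≤ ∑ p ∈ m.primeFactors.filter (fun p => K < p), K := by
      refine (card_le_card h1).trans (card_biUnion_le.trans (sum_le_sum fun p hp => ?_))
      rw [mem_filter] at hp
      refine hA.mult p (Nat.prime_of_mem_primeFactors hp.1) hp.2 _ fun n hn => ?_
      rw [mem_filter] at hn
      exact ⟨(hTS n hn.1).1, hn.2, (hTS n hn.1).2.2⟩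
    rw [sum_const, smul_eq_mul, mul_comm] at h2
    refine h2.trans (Nat.mul_le_mul_left K ((card_filter_le _ _).trans ?_))
    refine Nat.le_log_of_pow_le (by norm_num) ?_
    calc 2 ^ m.primeFactors.card = ∏ p ∈ m.primeFactors, 2 := by rw [prod_const]
      _ ≤ ∏ p ∈ m.primeFactors, p := prod_le_prod (fun _ _ => by norm_num)
          (fun p hp => (Nat.prime_of_mem_primeFactors hp).two_le)
      _ ≤ m := Nat.le_of_dvd (Nat.pos_of_ne_zero hm) (Nat.prod_primeFactors_dvd m)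
  have h1 : (S.filter fun n => ¬ Two K n).card ≤ (Nat.log 2 m + 1) ^ (K + 1) := by
    refine card_one_le K m hm _ fun n hn => ?_
    rw [mem_filter] at hn
    exact ⟨(hS n hn.1).2, hn.2⟩
  have h2 := Finset.card_filter_add_card_filter_not (s := S) (fun n => Two K n)
  obtain ⟨x, hx⟩ : ∃ x, x = Nat.log 2 m := ⟨_, rfl⟩
  rw [← hx] at h0 h1 ⊢
  have h3 : x ≤ (x + 1) ^ (K + 1) := by
    calc x ≤ (x + 1) ^ 1 := by
          rw [pow_one]
          exact Nat.le_succ x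
      _ ≤ (x + 1) ^ (K + 1) := Nat.pow_le_pow_right (by omega) (by omega)
  have h4 : K * x ≤ K * (x + 1) ^ (K + 1) := Nat.mul_le_mul_left K h3
  have h5 : (x + 1) ^ (K + 1) ≤ K * (x + 1) ^ (K + 1) := Nat.le_mul_of_pos_left _ hK1
  rw [← h2]
  calc _ ≤ K * x + (x + 1) ^ (K + 1) := Nat.add_le_add h0 h1
    _ ≤ K * (x + 1) ^ (K + 1) + K * (x + 1) ^ (K + 1) := Nat.add_le_add h4 h5
    _ ≤ K * (x + 1) ^ (K + 1) + K * (x + 1) ^ (K + 1) + K * (x + 1) ^ (K + 1) :=
        Nat.le_add_right _ _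
    _ = _ := by ring

theorem abs_FR_le {A : Set ℕ} {K : ℕ} (hA : Good A K) (ε : ℕ → ℤ) (hε : ∀ p, |ε p| ≤ 1) (y : ℕ)
    (m : ℕ) : |FR A ε y m| ≤ (((3 * K) * (Nat.log 2 m + 1) ^ (K + 1) : ℕ) : ℤ) := by
  classical
  unfold FR
  refine (abs_sum_le_sum_abs _ _).trans ?_
  refine (sum_le_sum (fun p _ => hε p)).trans ?_
  rw [sum_const, nsmul_eq_mul, mul_one]
  norm_cast
  rcases Nat.eq_zero_or_pos m with rfl | hm
  · simp
  · refine card_le hA m _ (fun n hn => ?_) hm.ne'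
    rw [mem_filter, Nat.mem_divisors] at hn
    exact ⟨hn.2.1, hn.1.1⟩

theorem abs_aR_le {A : Set ℕ} {K : ℕ} (hA : Good A K) (ε θ : ℕ → ℤ) (hε : ∀ p, |ε p| ≤ 1)
    (hθ : Th θ) (y : ℕ) (m : ℕ) :
    |aR A ε θ y m| ≤ (((3 * K) * (Nat.log 2 m + 1) ^ (K + 1) : ℕ) : ℤ) := by
  unfold aR
  rw [abs_mul, hθ.one, one_mul]
  exact abs_FR_le hA ε hε y m

end Pool.Agent.Helper51.PT
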