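import Pool.Agent.Helper51.PT.Basic
import Pool.Agent.Helper51.PS.Code
import Pool.Agent.Helper51.BR.Code
import Pool.Agent.Helper51.BM.Code

/-!
# MP_175197_nt, project PT: the members without prime factor `> y`, and the codes for the members,
not prime powers, with a prime factor in `(K, y]`
-/

set_option autoImplicit false

namespace Pool.Agent.Helper51.PT

open Finset
open Pool.Agent.Helper9.PF
open Pool.Agent.Helper51.BM (cd cd_iff cd_le)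
open Pool.Agent.Helper51.BR (rough fR gR odd_iff_not smooth_dvd)
open Pool.Agent.Helper51.PS (Sm odd_iff_two)

open Classical in
/-- the members with a prime factor in `(K, y]` and a prime factor `> y`, up to `X` -/
noncomputable def SC (A : Set ℕ) (K y X : ℕ) : Finset ℕ :=
  (Icc 1 X).filter fun c => c ∈ A ∧ (∃ p : ℕ, p.Prime ∧ p ∣ c ∧ K < p ∧ p ≤ y) ∧
    ∃ p : ℕ, p.Prime ∧ p ∣ c ∧ y < p

theorem card_SC {A : Set ℕ} {K : ℕ} (hA : Good A K) {y : ℕ} (hKy : K ≤ y) (X : ℕ) :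
    (SC A K y X).card ≤ K * y := by
  classical
  have h1 : SC A K y X ⊆ ((Icc 1 y).filter fun p => p.Prime ∧ K < p).biUnion fun p =>
      (SC A K y X).filter fun n => p ∣ n := by
    intro n hn
    have hn' := hn
    unfold SC at hn
    rw [mem_filter, mem_Icc] at hn
    obtain ⟨h2, h3, ⟨p, hp, hpn, hKp, hpy⟩, h5⟩ := hn
    rw [mem_biUnion]
    exact ⟨p, mem_filter.2 ⟨mem_Icc.2 ⟨hp.pos, hpy⟩, hp, hKp⟩, mem_filter.2 ⟨hn', hpn⟩⟩
  refine (card_le_card h1).trans (card_biUnion_le.trans ?_)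
  have h2 : ∑ p ∈ (Icc 1 y).filter (fun p => p.Prime ∧ K < p),
      ((SC A K y X).filter fun n => p ∣ n).card ≤
      ∑ _p ∈ (Icc 1 y).filter (fun p => p.Prime ∧ K < p), K := by
    refine sum_le_sum fun p hp => ?_
    rw [mem_filter, mem_Icc] at hp
    refine hA.mult p hp.2.1 hp.2.2 _ fun n hn => ?_
    rw [mem_filter] at hn
    unfold SC at hn
    rw [mem_filter] at hn
    obtain ⟨⟨-, h3, -, r, hr, hrn, hyr⟩, h4⟩ := hn
    exact ⟨h3, h4, p, r, hp.2.1, hr, by omega, hp.2.2, by omega, h4, hrn⟩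
  refine h2.trans ?_
  rw [sum_const, smul_eq_mul, mul_comm]
  refine Nat.mul_le_mul_left K ((card_filter_le _ _).trans ?_)
  rw [Nat.card_Icc]
  omega

theorem gR_eq {A : Set ℕ} {K : ℕ} (hA : Good A K) (ε : ℕ → ℤ) {y V X N N' d i : ℕ} (hd : Odd d)
    (hy2 : 2 ≤ y) (hKy : K ≤ y) (hdy : ∀ p : ℕ, p.Prime → p ∣ d → p ≤ y)
    (hN : 1 ≤ N) (hN' : 1 ≤ N')
    (hNX : N + V ≤ X) (hNX' : N' + V ≤ X) (hi : i ≤ V) (hdN : d ∣ N + i) (hdN' : d ∣ N' + i)
    (hsm : ∀ m : ℕ, (∀ p : ℕ, p.Prime → p ∣ m → p ≤ y) → (m ∣ N + i ↔ m ∣ N' + i))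
    (hc : ∀ c ∈ SC A K y X, cd V (d * c) N = cd V (d * c) N') :
    gR A ε K y ((N + i) / d) = gR A ε K y ((N' + i) / d) := by
  classical
  have hd0 : 0 < d := hd.pos
  have hpos : ∀ N, 1 ≤ N → d ∣ N + i → (N + i) / d ≠ 0 := by
    intro N h1 h2
    have := Nat.div_pos (Nat.le_of_dvd (by omega) h2) hd0
    omega
  have key : ∀ N N', 1 ≤ N → 1 ≤ N' → N + V ≤ X → d ∣ N + i → d ∣ N' + i →
      (∀ c ∈ SC A K y X, cd V (d * c) N = cd V (d * c) N') → ∀ n, n ∣ (N + i) / d → n ∈ A → y < n →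
      (∃ p : ℕ, p.Prime ∧ p ∣ n ∧ y < p) → ¬ rough K y n → n ∣ (N' + i) / d := by
    intro N N' h1 h1' h2 h3 h4 h5 n h6 h7 h8 h8' h9
    have h10 := hpos N h1 h3
    have h11 : n ≤ (N + i) / d := Nat.le_of_dvd (Nat.pos_of_ne_zero h10) h6
    have h12 : (N + i) / d ≤ N + i := Nat.div_le_self _ _
    have h13 : n ∈ SC A K y X := by
      unfold SC
      rw [mem_filter, mem_Icc]
      refine ⟨⟨by omega, by omega⟩, h7, ?_, h8'⟩
      by_contra hcon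
      push Not at hcon
      exact h9 ⟨hcon, h8'⟩
    have h14 : d * n ∣ N + i := by
      rw [← Nat.dvd_div_iff_mul_dvd h3]
      exact h6
    have h15 := (cd_iff (h5 n h13) hi).1 h14
    rw [Nat.dvd_div_iff_mul_dvd h4]
    exact h15
  -- parity
  have hpar : ∀ n, n ∣ (N + i) / d → n ∣ (N' + i) / d →
      (Odd ((N + i) / d / n) ↔ Odd ((N' + i) / d / n)) := by
    intro n h1 h2
    rw [odd_iff_two (by omega) hd (by rw [← Nat.dvd_div_iff_mul_dvd hdN]; exact h1),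
      odd_iff_two (by omega) hd (by rw [← Nat.dvd_div_iff_mul_dvd hdN']; exact h2)]
    rw [hsm (2 ^ (n.factorization 2 + 1)) (fun p hp hpd => by
      have := (Nat.prime_dvd_prime_iff_eq hp Nat.prime_two).1 (hp.dvd_of_dvd_pow hpd)
      omega)]
  -- members without prime factor `> y`
  have key2 : ∀ n, 0 < n → (¬ ∃ p : ℕ, p.Prime ∧ p ∣ n ∧ y < p) →
      (n ∣ (N + i) / d ∧ Odd ((N + i) / d / n) ↔ n ∣ (N' + i) / d ∧ Odd ((N' + i) / d / n)) := by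
    intro n hn0 hn
    have hpn2 : ∀ r : ℕ, r.Prime → r ∣ n → r ≤ y := by
      intro r hr hrn
      by_contra hcon
      push Not at hcon
      exact hn ⟨r, hr, hrn, hcon⟩
    have hny : ∀ r : ℕ, r.Prime → r ∣ d * n → r ≤ y := by
      intro r hr hrn
      rcases (Nat.Prime.dvd_mul hr).1 hrn with h | h
      · exact hdy r hr h
      · exact hpn2 r hr h
    have hny2 : ∀ r : ℕ, r.Prime → r ∣ d * (2 * n) → r ≤ y := by
      intro r hr hrn
      have e : d * (2 * n) = 2 * (d * n) := by ring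
      rw [e] at hrn
      rcases (Nat.Prime.dvd_mul hr).1 hrn with h | h
      · exact (Nat.le_of_dvd (by norm_num) h).trans hy2
      · exact hny r hr h
    have a1 : n ∣ (N + i) / d ↔ n ∣ (N' + i) / d := by
      rw [Nat.dvd_div_iff_mul_dvd hdN, Nat.dvd_div_iff_mul_dvd hdN']
      exact hsm _ hny
    have a2 : 2 * n ∣ (N + i) / d ↔ 2 * n ∣ (N' + i) / d := by
      rw [Nat.dvd_div_iff_mul_dvd hdN, Nat.dvd_div_iff_mul_dvd hdN']
      exact hsm _ hny2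
    constructor
    · rintro ⟨h1, h2⟩
      refine ⟨a1.1 h1, ?_⟩
      rw [odd_iff_not hn0 (a1.1 h1), ← a2, ← odd_iff_not hn0 h1]
      exact h2
    · rintro ⟨h1, h2⟩
      refine ⟨a1.2 h1, ?_⟩
      rw [odd_iff_not hn0 (a1.2 h1), a2, ← odd_iff_not hn0 h1]
      exact h2
  unfold gR
  congr 1
  ext n
  simp only [mem_filter, Nat.mem_divisors]
  by_cases hpp : ∃ p : ℕ, p.Prime ∧ p ∣ n ∧ y < p
  swap
  · constructor
    · rintro ⟨⟨h1, -⟩, ⟨h2, h3, h3'⟩, h4⟩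
      have h5 := (key2 n (hA.pos n h2) hpp).1 ⟨h1, h3'⟩
      exact ⟨⟨h5.1, hpos N' hN' hdN'⟩, ⟨h2, h3, h5.2⟩, h4⟩
    · rintro ⟨⟨h1, -⟩, ⟨h2, h3, h3'⟩, h4⟩
      have h5 := (key2 n (hA.pos n h2) hpp).2 ⟨h1, h3'⟩
      exact ⟨⟨h5.1, hpos N hN hdN⟩, ⟨h2, h3, h5.2⟩, h4⟩
  · constructor
    · rintro ⟨⟨h1, -⟩, ⟨h2, h3, h3'⟩, h4⟩
      have h5 := key N N' hN hN' hNX hdN hdN' hc n h1 h2 h3 hpp h4
      exact ⟨⟨h5, hpos N' hN' hdN'⟩, ⟨h2, h3, (hpar n h1 h5).1 h3'⟩, h4⟩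
    · rintro ⟨⟨h1, -⟩, ⟨h2, h3, h3'⟩, h4⟩
      have h5 := key N' N hN' hN hNX' hdN' hdN (fun c hcc => (hc c hcc).symm) n h1 h2 h3 hpp h4
      exact ⟨⟨h5, hpos N hN hdN⟩, ⟨h2, h3, (hpar n h5 h1).2 h3'⟩, h4⟩

end Pool.Agent.Helper51.PT
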