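import Pool.Agent.Helper51.PS.Params

/-!
# MP_175197_nt, project PT: the parameters

`G, y, D, W, E, V` belong to `L = T * l`; the noise, `Y`, `Z` and the pool of primes to `l`.
-/

set_option autoImplicit false

namespace Pool.Agent.Helper51.PT

open Filter
open Pool.Agent.Helper9.PF
open Pool.Agent.Helper51.BR (JJ QQ_le s1)
open Pool.Agent.Helper51.PS (RS small q6' RS_ge r4 s3 r9)

/-- the bound for the number of divisors composed of primes `≤ K` -/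
def Ms (K L : ℕ) : ℕ := (2 * del L + 6) ^ K
/-- the noise -/
def NB (K T l : ℕ) : ℕ := (l + Ms K (T * l) * JJ (T * l)) * 2 ^ l
/-- number of design primes per place -/
def uP (K T l : ℕ) : ℕ := (2 * NB K T l + 1) * 2 ^ (T * l)
/-- `B` -/
def bP (K T l : ℕ) : ℕ := uP K T l + NB K T l
/-- the exponent of the primorial in the modulus -/
def JM (T L : ℕ) : ℕ := T * (2 * del L + 5) + 2 * yy L + 2 * del L + 5
/-- the modulus without `QQ` -/
def RM (T L : ℕ) : ℕ := T * primorial (yy L) ^ JM T L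

private theorem eta_pos {L : ℕ} (hL : 1 ≤ L) : 1 ≤ eta L := by
  unfold eta
  have h1 : 1 ≤ L ^ 2 := Nat.one_le_pow _ _ hL
  omega

private theorem JJ_le {L : ℕ} (hL : 1 ≤ L) : JJ L ≤ 2 * del L + 10 := by
  have h1 := eta_pos hL
  unfold JJ del
  nlinarith

private theorem sq_le_pow {m : ℕ} (hm : 4 ≤ m) : m * m ≤ 2 ^ m := by
  induction m, hm using Nat.le_induction with
  | base => norm_num
  | succ m hm ih =>
    rw [pow_succ]
    nlinarith

private theorem evk (k : ℕ) : ∀ᶠ l : ℕ in atTop, l ^ k ≤ 2 ^ l := by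
  have h := tendsto_pow_const_div_const_pow_of_one_lt k (r := (2 : ℝ)) (by norm_num)
  have h2 : ∀ᶠ n : ℕ in atTop, (n : ℝ) ^ k / 2 ^ n < 1 := h.eventually (gt_mem_nhds (by norm_num))
  filter_upwards [h2] with n hn
  have hp : (0 : ℝ) < 2 ^ n := by positivity
  rw [div_lt_iff₀ hp] at hn
  have h4 : (n : ℝ) ^ k ≤ 2 ^ n := by linarith
  exact_mod_cast h4

private theorem key_ev (K : ℕ) : ∀ᶠ l : ℕ in atTop, ∀ T : ℕ, T ^ (40 * (K + 1)) ≤ 2 ^ l →
    (2 ^ 35 * T ^ 4 * l ^ 4) ^ (K + 1) ≤ 2 ^ (l - 2) := by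
  filter_upwards [evk (40 * (K + 1)), eventually_ge_atTop (350 * (K + 1) + 20)] with l h7 hl T hT
  have h1 : ((2 ^ 35 * T ^ 4 * l ^ 4) ^ (K + 1)) ^ 10 ≤ (2 ^ (l - 2)) ^ 10 := by
    calc ((2 ^ 35 * T ^ 4 * l ^ 4) ^ (K + 1)) ^ 10 =
          2 ^ (350 * (K + 1)) * T ^ (40 * (K + 1)) * l ^ (40 * (K + 1)) := by
          rw [← pow_mul, mul_pow, mul_pow, ← pow_mul, ← pow_mul, ← pow_mul]
          ring_nf
      _ ≤ 2 ^ (350 * (K + 1)) * 2 ^ l * 2 ^ l := Nat.mul_le_mul (Nat.mul_le_mul_left _ hT) h7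
      _ = 2 ^ (350 * (K + 1) + l + l) := by rw [← pow_add, ← pow_add]
      _ ≤ 2 ^ ((l - 2) * 10) := Nat.pow_le_pow_right (by norm_num) (by omega)
      _ = (2 ^ (l - 2)) ^ 10 := pow_mul _ _ _
  exact (pow_le_pow_iff_left₀ (Nat.zero_le _) (Nat.zero_le _) (by norm_num)).1 h1

private theorem del_le {L : ℕ} (hL : 1 ≤ L) : del L ≤ 2 ^ 33 * L ^ 4 := by
  unfold del eta
  have h1 : 1 ≤ L ^ 2 := Nat.one_le_pow _ _ hL
  calc 64 * (1 + 8192 * L ^ 2) * (8192 * L ^ 2)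
      ≤ 64 * (16384 * L ^ 2) * (8192 * L ^ 2) :=
        Nat.mul_le_mul_right _ (Nat.mul_le_mul_left _ (by omega))
    _ = 2 ^ 33 * L ^ 4 := by ring

private theorem poly_le {T l : ℕ} (hT : 4 ≤ T) (hl : 1 ≤ l) :
    2 * del (T * l) + (T + 4) * l + 10 ≤ 2 ^ 35 * T ^ 4 * l ^ 4 := by
  have h1 : del (T * l) ≤ 2 ^ 33 * (T * l) ^ 4 := del_le (Nat.mul_pos (by omega) hl)
  have h2 : T ≤ T ^ 4 := Nat.le_self_pow (by norm_num) T
  have h3 : l ≤ l ^ 4 := Nat.le_self_pow (by norm_num) l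
  have h4 : T * l ≤ T ^ 4 * l ^ 4 := Nat.mul_le_mul h2 h3
  have h5 : l ≤ T * l := Nat.le_mul_of_pos_left _ (by omega)
  have h6 : (T * l) ^ 4 = T ^ 4 * l ^ 4 := by ring
  rw [h6] at h1
  have h7 : (T + 4) * l = T * l + 4 * l := by ring
  have h8 : 2 ^ 35 * T ^ 4 * l ^ 4 = 2 ^ 34 * (T ^ 4 * l ^ 4) + 2 ^ 34 * (T ^ 4 * l ^ 4) := by ring
  have h9 : 1 ≤ T * l := Nat.mul_pos (by omega) hl
  rw [h7, h8]
  omega

/-- the master inequalities, uniformly in `T` -/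
theorem master (K : ℕ) : ∀ᶠ l : ℕ in atTop, ∀ T : ℕ, 4 ≤ T → T ^ (40 * (K + 1)) ≤ 2 ^ l →
    2 * del (T * l) + (T + 4) * l + 10 ≤ 2 ^ (l - 2) ∧
      l + Ms K (T * l) * JJ (T * l) ≤ 2 ^ l := by
  filter_upwards [key_ev K, eventually_ge_atTop 2] with l hk hl T hT hTl
  have h1 := hk T hTl
  have h2 := poly_le hT (by omega : 1 ≤ l)
  have hL1 : 1 ≤ T * l := Nat.mul_pos (by omega) (by omega)
  have h3 := JJ_le hL1
  obtain ⟨q, hq⟩ : ∃ q, q = 2 ^ 35 * T ^ 4 * l ^ 4 := ⟨_, rfl⟩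
  rw [← hq] at h1 h2
  have hq1 : 1 ≤ q := by omega
  have hqq : q ≤ q ^ (K + 1) := Nat.le_self_pow (by omega) q
  have h4l : 4 * 2 ^ (l - 2) = 2 ^ l := by
    have : l = (l - 2) + 2 := by omega
    conv_rhs => rw [this, pow_add]
    ring
  refine ⟨by omega, ?_⟩
  have h5 : Ms K (T * l) ≤ q ^ K := Nat.pow_le_pow_left (by omega) K
  have h6 : JJ (T * l) ≤ q := by omega
  have h7 : Ms K (T * l) * JJ (T * l) ≤ q ^ (K + 1) := by
    rw [pow_succ]
    exact Nat.mul_le_mul h5 h6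
  have h8 : l ≤ q := by
    have : l ≤ (T + 4) * l := Nat.le_mul_of_pos_left _ (by omega)
    omega
  omega

private theorem VV_le {L : ℕ} (hL : 1 ≤ L) : VV L ≤ 2 ^ (2 * del L + 3) := by
  unfold VV EE WW DD
  have h0 : L ≤ del L := by
    unfold del eta
    have h1 : L ≤ L ^ 2 := by nlinarith
    have h2 : 1 ≤ 64 * (1 + 8192 * L ^ 2) := by omega
    calc L ≤ 1 * (8192 * L ^ 2) := by omega
      _ ≤ 64 * (1 + 8192 * L ^ 2) * (8192 * L ^ 2) := Nat.mul_le_mul_right _ h2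
  have h1 : 2 ^ L + 2 ≤ 2 ^ (L + 1) := by
    have h2 : 2 ^ 1 ≤ 2 ^ L := Nat.pow_le_pow_right (by norm_num) hL
    rw [pow_succ]
    omega
  have h3 : 2 ^ (L + 1) ≤ 2 ^ (del L + 1) :=
    Nat.pow_le_pow_right (by norm_num) (by omega)
  calc 2 * (2 ^ del L * (2 ^ L + 2)) + 4 * (2 ^ del L) ^ 2
      ≤ 2 * (2 ^ del L * 2 ^ (del L + 1)) + 4 * (2 ^ del L) ^ 2 := by
        gcongr
        exact h1.trans h3
    _ = 2 ^ (2 * del L + 3) := by ring

private theorem V1_le {L : ℕ} (hL : 1 ≤ L) : VV L + 1 ≤ 2 ^ (2 * del L + 4) := by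
  have h2 := VV_le hL
  have h3 : 1 ≤ 2 ^ (2 * del L + 3) := Nat.one_le_two_pow
  rw [pow_succ 2 (2 * del L + 3)]
  omega

private theorem uP_le {K T l : ℕ} (hJ : l + Ms K (T * l) * JJ (T * l) ≤ 2 ^ l) :
    uP K T l ≤ 2 ^ (T * l + 2 * l + 2) := by
  unfold uP NB
  have h2 : 1 ≤ 2 ^ l := Nat.one_le_two_pow
  have h3 : 2 ^ (T * l + 2 * l + 2) = (4 * (2 ^ l * 2 ^ l)) * 2 ^ (T * l) := by ring
  rw [h3]
  refine Nat.mul_le_mul_right _ ?_
  have h4 : (l + Ms K (T * l) * JJ (T * l)) * 2 ^ l ≤ 2 ^ l * 2 ^ l := Nat.mul_le_mul_right _ hJ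
  have h5 : 1 ≤ 2 ^ l * 2 ^ l := Nat.mul_pos h2 h2
  omega

private theorem NB_le {K T l : ℕ} (hJ : l + Ms K (T * l) * JJ (T * l) ≤ 2 ^ l) :
    2 * NB K T l + 1 ≤ 2 ^ (2 * l + 2) := by
  unfold NB
  have h2 : 1 ≤ 2 ^ l := Nat.one_le_two_pow
  have h3 : 2 ^ (2 * l + 2) = 4 * (2 ^ l * 2 ^ l) := by ring
  rw [h3]
  have h4 : (l + Ms K (T * l) * JJ (T * l)) * 2 ^ l ≤ 2 ^ l * 2 ^ l := Nat.mul_le_mul_right _ hJ
  have h5 : 1 ≤ 2 ^ l * 2 ^ l := Nat.mul_pos h2 h2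
  omega

private theorem bP_le {K T l : ℕ} (hJ : l + Ms K (T * l) * JJ (T * l) ≤ 2 ^ l) :
    2 * bP K T l + 1 ≤ 2 ^ (T * l + 2 * l + 4) := by
  unfold bP
  have h1 := uP_le hJ
  have h2 := NB_le hJ
  have h3 : 2 ^ (2 * l + 2) ≤ 2 ^ (T * l + 2 * l + 2) := Nat.pow_le_pow_right (by norm_num) (by omega)
  have h4 : 2 ^ (T * l + 2 * l + 4) = 4 * 2 ^ (T * l + 2 * l + 2) := by ring
  rw [h4]
  omega

theorem r5 {K T l : ℕ} (hT : 4 ≤ T) (hl : 10 ≤ l) (hJ : l + Ms K (T * l) * JJ (T * l) ≤ 2 ^ l) (lam : ℝ)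
    (hlam : 3 / 2 ≤ lam) : 4 * (bP K T l : ℝ) + 2 * (30 * (l : ℝ)) < lam ^ GG (T * l) := by
  have hL3 : 3 ≤ T * l := by nlinarith
  have h1 : ∀ L : ℕ, 3 ≤ L → (76 : ℝ) * 4 ^ L < 25 ^ L := by
    intro L hL
    induction L, hL using Nat.le_induction with
    | base => norm_num
    | succ L hL ih =>
      rw [pow_succ, pow_succ]
      have h2 : (0 : ℝ) < 4 ^ L := by positivity
      linarith
  have h3 : (25 : ℝ) ^ (T * l) ≤ lam ^ GG (T * l) := by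
    unfold GG
    rw [pow_mul lam]
    refine pow_le_pow_left₀ (by norm_num) ?_ (T * l)
    refine le_trans ?_ (pow_le_pow_left₀ (by norm_num) hlam 8)
    norm_num
  have h4 : 4 * bP K T l + 2 * (30 * l) ≤ 76 * 4 ^ (T * l) := by
    obtain ⟨c, hc⟩ : ∃ c, c = l + Ms K (T * l) * JJ (T * l) := ⟨_, rfl⟩
    have hlc : l ≤ c := by rw [hc]; exact Nat.le_add_right _ _
    obtain ⟨x, hx⟩ : ∃ x, x = 2 ^ l := ⟨_, rfl⟩
    have hx1 : 1 ≤ x := by rw [hx]; exact Nat.one_le_two_pow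
    obtain ⟨z, hz⟩ : ∃ z, z = 2 ^ (T * l) := ⟨_, rfl⟩
    have hxz : x * x ≤ z := by
      rw [hx, hz, ← pow_add]
      exact Nat.pow_le_pow_right (by norm_num) (by nlinarith)
    have e4 : uP K T l = (2 * (c * x) + 1) * z := by
      unfold uP NB
      rw [hx, hz, hc]
    have e5 : NB K T l = c * x := by
      unfold NB
      rw [hx, hc]
    have e6 : (4 : ℕ) ^ (T * l) = z * z := by
      rw [hz, ← mul_pow]
      norm_num
    have e3 : c ≤ x := by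
      rw [hc, hx]
      exact hJ
    have e7 : c * x ≤ x * x := Nat.mul_le_mul_right _ e3
    have hz1 : 1 ≤ z := by nlinarith
    unfold bP
    rw [e4, e5, e6]
    have e8 : (2 * (c * x) + 1) * z ≤ (3 * z) * z := Nat.mul_le_mul_right _ (by nlinarith)
    have e9 : c * x ≤ z * z := by nlinarith
    have e10 : l ≤ z * z := by nlinarith
    have e11 : 3 * z * z = 3 * (z * z) := by ring
    omega
  have h5 : 4 * (bP K T l : ℝ) + 2 * (30 * (l : ℝ)) ≤ 76 * 4 ^ (T * l) := by exact_mod_cast h4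
  exact lt_of_le_of_lt h5 ((h1 _ hL3).trans_le h3)

theorem r7 {K T l : ℕ} (hT : 4 ≤ T) (hl : 10 ≤ l)
    (hkey : 2 * del (T * l) + (T + 4) * l + 10 ≤ 2 ^ (l - 2)) (hJ : l + Ms K (T * l) * JJ (T * l) ≤ 2 ^ l) :
    l * (WW (T * l) * uP K T l) ≤ 2 ^ (2 ^ (l - 2)) ∧ VV (T * l) ≤ 2 ^ (2 ^ (l - 2)) ∧
      yy (T * l) ≤ 2 ^ (2 ^ (l - 2)) := by
  have hL1 : 1 ≤ T * l := Nat.mul_pos (by omega) (by omega)
  have hTl : (T + 4) * l = T * l + 4 * l := by ring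
  refine ⟨?_, ?_, ?_⟩
  · calc l * (WW (T * l) * uP K T l) ≤ 2 ^ l * (4 * (2 ^ del (T * l)) ^ 2 *
          2 ^ (T * l + 2 * l + 2)) :=
          Nat.mul_le_mul Nat.lt_two_pow_self.le (Nat.mul_le_mul_left _ (uP_le hJ))
      _ = 2 ^ (2 * del (T * l) + T * l + 3 * l + 4) := by ring
      _ ≤ 2 ^ (2 ^ (l - 2)) := Nat.pow_le_pow_right (by norm_num) (by omega)
  · exact (VV_le hL1).trans (Nat.pow_le_pow_right (by norm_num) (by omega))
  · unfold yy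
    have h : eta (T * l) ≤ del (T * l) := by
      unfold del
      nlinarith [Nat.zero_le (eta (T * l))]
    exact Nat.pow_le_pow_right (by norm_num) (by omega)

/-- the residue fits into the power -/
theorem s2 {T L a' : ℕ} (hL : 1 ≤ L) (ha : a' < 2 * (QQ (GG L) (yy L) * T ^ (2 * del L + 5))) :
    a' + VV L < 2 ^ JM T L := by
  have h1 : QQ (GG L) (yy L) * T ^ (2 * del L + 5) ≤ 2 ^ (2 * yy L) * 2 ^ (T * (2 * del L + 5)) := by
    refine Nat.mul_le_mul ?_ ?_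
    · refine (QQ_le _ _).trans (le_of_eq ?_)
      rw [pow_mul]
      norm_num
    · rw [pow_mul]
      exact Nat.pow_le_pow_left Nat.lt_two_pow_self.le _
  have h2 := VV_le hL
  obtain ⟨u, hu⟩ : ∃ u, u = T * (2 * del L + 5) := ⟨_, rfl⟩
  rw [← hu] at h1
  have h3 : 2 ^ (2 * yy L) * 2 ^ u = 2 ^ (2 * yy L + u) := (pow_add _ _ _).symm
  have h4 : 2 ^ (2 * yy L + u) ≤ 2 ^ (u + 2 * yy L + 2 * del L + 3) :=
    Nat.pow_le_pow_right (by norm_num) (by omega)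
  have h5 : 2 ^ (2 * del L + 3) ≤ 2 ^ (u + 2 * yy L + 2 * del L + 3) :=
    Nat.pow_le_pow_right (by norm_num) (by omega)
  have h7 : 2 ^ JM T L = 4 * 2 ^ (u + 2 * yy L + 2 * del L + 3) := by
    unfold JM
    rw [← hu]
    have : u + 2 * yy L + 2 * del L + 5 = (u + 2 * yy L + 2 * del L + 3) + 2 := by omega
    rw [this, pow_add]
    ring
  rw [h3] at h1
  have h8 : 0 < 2 ^ (u + 2 * yy L + 2 * del L + 3) := by positivity
  omega

/-- the small residue fits into the small power -/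
theorem s4 {T L c : ℕ} (hL : 1 ≤ L) (hT : T ≤ L) (hc : c ≤ 2 * T) :
    c + VV L < 2 ^ (2 * del L + 5) := by
  have h2 := VV_le hL
  have h0 : L ≤ del L := by
    unfold del eta
    have h1 : L ≤ L ^ 2 := by nlinarith
    have h2 : 1 ≤ 64 * (1 + 8192 * L ^ 2) := by omega
    calc L ≤ 1 * (8192 * L ^ 2) := by omega
      _ ≤ 64 * (1 + 8192 * L ^ 2) * (8192 * L ^ 2) := Nat.mul_le_mul_right _ h2
  have h3 : 2 * del L < 2 ^ (2 * del L) := Nat.lt_two_pow_self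
  have h4 : 2 ^ (2 * del L + 5) = 32 * 2 ^ (2 * del L) := by ring
  have h5 : 2 ^ (2 * del L + 3) = 8 * 2 ^ (2 * del L) := by ring
  omega

theorem r8 {K T l : ℕ} (hT : 4 ≤ T) (hl : 10 ≤ l)
    (hexp : 2 * del (T * l) + (T + 4) * l + 10 ≤ 2 ^ (l - 2)) (hJ : l + Ms K (T * l) * JJ (T * l) ≤ 2 ^ l) :
    16 * (RM T (T * l) * QQ (GG (T * l)) (yy (T * l)) * ZZ l ^ (2 * (WW (T * l) * uP K T l))) ≤
      YY l := by
  obtain ⟨L, hL⟩ : ∃ L, L = T * l := ⟨_, rfl⟩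
  have hTl : (T + 4) * l = L + 4 * l := by rw [hL]; ring
  have hTL : T ≤ L := by
    rw [hL]
    exact Nat.le_mul_of_pos_right _ (by omega)
  have huP := uP_le hJ
  rw [← hL] at hexp huP ⊢
  have hpow : 2 * 2 ^ (l - 2) = 2 ^ (l - 1) := by
    rw [← pow_succ']
    congr 1
    omega
  have heta : eta L ≤ del L := by
    unfold del
    nlinarith [Nat.zero_le (eta L)]
  obtain ⟨m, hm⟩ : ∃ m, m = 2 ^ (l - 2) := ⟨_, rfl⟩
  obtain ⟨e1, he1⟩ : ∃ e1, e1 = m + (2 * del L + L + 2 * l + 5) := ⟨_, rfl⟩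
  rw [← hm] at hexp hpow
  have he2 : e1 + 2 ≤ 2 ^ (l - 1) := by omega
  have hW : 2 * (WW L * uP K T l) ≤ 2 ^ (2 * del L + L + 2 * l + 5) := by
    have h1 : WW L * uP K T l ≤ 4 * (2 ^ del L) ^ 2 * 2 ^ (L + 2 * l + 2) :=
      Nat.mul_le_mul_left _ huP
    have h2 : 4 * (2 ^ del L) ^ 2 * 2 ^ (L + 2 * l + 2) =
        2 ^ (2 * del L + L + 2 * l + 4) := by ring
    have h3 : 2 ^ (2 * del L + L + 2 * l + 5) =
        2 * 2 ^ (2 * del L + L + 2 * l + 4) := by ring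
    omega
  have hZ : ZZ l ^ (2 * (WW L * uP K T l)) ≤ 2 ^ 2 ^ e1 := by
    unfold ZZ
    rw [← pow_mul]
    refine Nat.pow_le_pow_right (by norm_num) ?_
    rw [he1, pow_add, hm]
    exact Nat.mul_le_mul_left _ hW
  -- the modulus
  have hRM : RM T L * QQ (GG L) (yy L) ≤ 2 ^ (T + 2 * yy L * (JM T L + 1)) := by
    unfold RM
    have g1 : T ≤ 2 ^ T := Nat.lt_two_pow_self.le
    have g2 : primorial (yy L) ^ JM T L ≤ (4 ^ yy L) ^ JM T L :=
      Nat.pow_le_pow_left (primorial_le_four_pow _) _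
    calc T * primorial (yy L) ^ JM T L * QQ (GG L) (yy L)
        ≤ 2 ^ T * (4 ^ yy L) ^ JM T L * 4 ^ yy L :=
          Nat.mul_le_mul (Nat.mul_le_mul g1 g2) (QQ_le _ _)
      _ = 2 ^ (T + 2 * yy L * (JM T L + 1)) := by
          have g3 : ∀ k : ℕ, (4 : ℕ) ^ k = 2 ^ (2 * k) := by
            intro k
            rw [pow_mul]
            norm_num
          rw [← pow_mul, g3, g3, ← pow_add, ← pow_add]
          congr 1
          ring
  have hexp2 : T + 2 * yy L * (JM T L + 1) ≤ 2 ^ e1 := by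
    have g0 : 2 * yy L = 2 ^ (eta L + 1) := by
      unfold yy
      rw [pow_succ']
    obtain ⟨b, hb⟩ : ∃ b, b = 2 ^ (eta L + 1) := ⟨_, rfl⟩
    have g2 : m ≤ 2 ^ m := Nat.lt_two_pow_self.le
    have g2' : m * m ≤ 2 ^ m := by
      have hm4 : 4 ≤ m := by omega
      exact sq_le_pow hm4
    have g1 : JM T L + 1 ≤ m * m + m + b := by
      unfold JM
      have g6 : T * (2 * del L + 5) ≤ m * m := Nat.mul_le_mul (by omega) (by omega)
      omega
    have g3 : b ≤ 2 ^ m := by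
      rw [hb]
      exact Nat.pow_le_pow_right (by norm_num) (by omega)
    have g4 : 1 ≤ b := by rw [hb]; exact Nat.one_le_two_pow
    have g5 : T ≤ 2 ^ m := by omega
    rw [g0, ← hb]
    calc T + b * (JM T L + 1) ≤ b * 2 ^ m + b * (2 ^ m + 2 ^ m + 2 ^ m) := by
          refine Nat.add_le_add ?_ (Nat.mul_le_mul_left _
            (g1.trans (Nat.add_le_add (Nat.add_le_add g2' g2) g3)))
          exact g5.trans (Nat.le_mul_of_pos_left _ g4)
      _ = 4 * (b * 2 ^ m) := by ring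
      _ = 2 ^ (eta L + 3 + m) := by rw [hb]; ring
      _ ≤ 2 ^ e1 := Nat.pow_le_pow_right (by norm_num) (by omega)
  have h6 : 4 ≤ 2 ^ e1 := by
    calc 4 = 2 ^ 2 := by norm_num
      _ ≤ 2 ^ e1 := Nat.pow_le_pow_right (by norm_num) (by omega)
  calc 16 * (RM T L * QQ (GG L) (yy L) * ZZ l ^ (2 * (WW L * uP K T l)))
      ≤ 16 * (2 ^ 2 ^ e1 * 2 ^ 2 ^ e1) :=
        Nat.mul_le_mul_left _ (Nat.mul_le_mul
          (hRM.trans (Nat.pow_le_pow_right (by norm_num) hexp2)) hZ)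
    _ = 2 ^ (4 + 2 ^ e1 + 2 ^ e1) := by rw [pow_add, pow_add]; ring
    _ ≤ 2 ^ (2 ^ (e1 + 2)) := by
        refine Nat.pow_le_pow_right (by norm_num) ?_
        have h7 : 2 ^ (e1 + 2) = 4 * 2 ^ e1 := by ring
        rw [h7]
        omega
    _ ≤ YY l := by
        unfold YY
        exact Nat.pow_le_pow_right (by norm_num) (Nat.pow_le_pow_right (by norm_num) he2)

theorem r10 {T l : ℕ} (hT : 4 ≤ T) (K₀ K : ℕ) (hl : K₀ + K + 11 ≤ l)
    (hJ : l + Ms K (T * l) * JJ (T * l) ≤ 2 ^ l) (bI : ℕ) (hbI : 16 * T * bI ≤ WW (T * l)) :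
    (2 * bP K T l + 1) ^ bI * (2 * NB K T l + 1) ^ (WW (T * l) / 16) *
      ((2 * (K₀ ^ (yy (T * l) ^ 2) * (RS (K + 1) l + 1)) + 1) ^ 2) ^ DD (T * l) *
      (VV (T * l) + 2) ^ (l * yy (T * l) * DD (T * l)) <
        (2 ^ (T * l)) ^ (WW (T * l) / T) := by
  have hbP := bP_le hJ
  have hNBle := NB_le hJ
  obtain ⟨L, hL⟩ : ∃ L, L = T * l := ⟨_, rfl⟩
  have hlL : l ≤ L := by
    rw [hL]
    exact Nat.le_mul_of_pos_left _ (by omega)
  rw [← hL] at hbI hbP ⊢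
  obtain ⟨N, S, h1, h2, h3⟩ := small K₀ (K + 1) L (by omega)
  have hRR : RS (K + 1) l ≤ RS (K + 1) L := by
    unfold RS
    refine Nat.mul_le_mul hlL (Nat.pow_le_pow_right (by norm_num) (Nat.mul_le_mul_left _ ?_))
    have : 2 ^ (l - 1) ≤ 2 ^ (L - 1) := Nat.pow_le_pow_right (by norm_num) (by omega)
    omega
  have h4 : 2 * (K₀ ^ (yy L ^ 2) * (RS (K + 1) l + 1)) + 1 ≤ 2 ^ N := by
    refine le_trans ?_ h1
    have : K₀ ^ (yy L ^ 2) * (RS (K + 1) l + 1) ≤ K₀ ^ (yy L ^ 2) * (RS (K + 1) L + 1) :=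
      Nat.mul_le_mul_left _ (by omega)
    omega
  have h5 : (VV L + 2) ^ (l * yy L * DD L) ≤ 2 ^ (S * DD L) := by
    rw [pow_mul (VV L + 2), pow_mul 2]
    refine Nat.pow_le_pow_left (le_trans ?_ h2) _
    exact Nat.pow_le_pow_right (by omega) (Nat.mul_le_mul_right _ hlL)
  obtain ⟨W, hW⟩ : ∃ W, W = WW L := ⟨_, rfl⟩
  obtain ⟨D, hD⟩ : ∃ D, D = DD L := ⟨_, rfl⟩
  have hWD : W = 4 * D ^ 2 := by rw [hW, hD, WW]
  have hbB : (2 * bP K T l + 1) ^ bI ≤ 2 ^ ((L + 2 * l + 4) * bI) := by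
    rw [pow_mul]
    exact Nat.pow_le_pow_left hbP _
  have hNBp : (2 * NB K T l + 1) ^ (W / 16) ≤ 2 ^ ((2 * l + 2) * (W / 16)) := by
    rw [pow_mul]
    exact Nat.pow_le_pow_left hNBle _
  have hK1 : ((2 * (K₀ ^ (yy L ^ 2) * (RS (K + 1) l + 1)) + 1) ^ 2) ^ D ≤ 2 ^ (2 * N * D) := by
    calc ((2 * (K₀ ^ (yy L ^ 2) * (RS (K + 1) l + 1)) + 1) ^ 2) ^ D ≤ ((2 ^ N) ^ 2) ^ D :=
          Nat.pow_le_pow_left (Nat.pow_le_pow_left h4 _) _
      _ = 2 ^ (2 * N * D) := by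
          rw [← pow_mul, ← pow_mul]
          congr 1
          ring
  rw [← hW] at hbI ⊢
  rw [← hD] at h3 h5 ⊢
  have hmain : (L + 2 * l + 4) * bI + (2 * l + 2) * (W / 16) + 2 * N * D + S * D < L * (W / T) := by
    -- multiply by 16
    have g1 : 16 * (W / 16) ≤ W := Nat.mul_div_le W 16
    have g2 : W < T * (W / T) + T := by
      have := Nat.div_add_mod W T
      have := Nat.mod_lt W (by omega : 0 < T)
      omega
    have g3 : 16 * (L * bI) ≤ l * W := by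
      rw [hL]
      calc 16 * (T * l * bI) = l * (16 * T * bI) := by ring
        _ ≤ l * W := Nat.mul_le_mul_left _ hbI
    have g4 : 16 * ((2 * l + 4) * bI) * 4 ≤ (2 * l + 4) * W := by
      calc 16 * ((2 * l + 4) * bI) * 4 = (2 * l + 4) * (16 * 4 * bI) := by ring
        _ ≤ (2 * l + 4) * (16 * T * bI) := by
            refine Nat.mul_le_mul_left _ (Nat.mul_le_mul_right _ (by omega))
        _ ≤ (2 * l + 4) * W := Nat.mul_le_mul_left _ hbI
    have g5 : 16 * ((2 * l + 2) * (W / 16)) ≤ (2 * l + 2) * W := by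
      calc 16 * ((2 * l + 2) * (W / 16)) = (2 * l + 2) * (16 * (W / 16)) := by ring
        _ ≤ (2 * l + 2) * W := Nat.mul_le_mul_left _ g1
    have g6 : 4 * ((2 * N + S) * D) ≤ D * D := by
      calc 4 * ((2 * N + S) * D) = (4 * (2 * N + S)) * D := by ring
        _ ≤ D * D := Nat.mul_le_mul_right _ h3.le
    have g7 : l * W ≤ L * (W / T) + T * l := by
      calc l * W ≤ l * (T * (W / T) + T) := Nat.mul_le_mul_left _ g2.le
        _ = T * l * (W / T) + T * l := by ring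
        _ = L * (W / T) + T * l := by rw [← hL]
    have g8 : T * l < D := by
      rw [← hL, hD, DD]
      have e1 : L ≤ del L := by
        unfold del eta
        have h1 : L ≤ L ^ 2 := by nlinarith
        have h2 : 1 ≤ 64 * (1 + 8192 * L ^ 2) := by omega
        calc L ≤ 1 * (8192 * L ^ 2) := by omega
          _ ≤ 64 * (1 + 8192 * L ^ 2) * (8192 * L ^ 2) := Nat.mul_le_mul_right _ h2
      exact lt_of_le_of_lt e1 Nat.lt_two_pow_self
    have g9 : D ≤ D * D := Nat.le_mul_of_pos_left _ (by omega)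
    have hW2 : W = 4 * (D * D) := by rw [hWD]; ring
    -- collect
    have c1 : (L + 2 * l + 4) * bI = L * bI + (2 * l + 4) * bI := by ring
    have c2 : 2 * N * D + S * D = (2 * N + S) * D := by ring
    have c3 : (2 * l + 4) * W = 2 * (l * W) + 4 * W := by ring
    have c4 : (2 * l + 2) * W = 2 * (l * W) + 2 * W := by ring
    have c5 : 10 * W ≤ l * W := Nat.mul_le_mul_right _ (by omega)
    rw [c3] at g4
    rw [c4] at g5
    rw [c1]
    have hWpos : 0 < W := by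
      rw [hW2]
      omega
    omega
  calc (2 * bP K T l + 1) ^ bI * (2 * NB K T l + 1) ^ (W / 16) *
      ((2 * (K₀ ^ (yy L ^ 2) * (RS (K + 1) l + 1)) + 1) ^ 2) ^ D * (VV L + 2) ^ (l * yy L * D)
      ≤ 2 ^ ((L + 2 * l + 4) * bI) * 2 ^ ((2 * l + 2) * (W / 16)) * 2 ^ (2 * N * D) *
        2 ^ (S * D) :=
        Nat.mul_le_mul (Nat.mul_le_mul (Nat.mul_le_mul hbB hNBp) hK1) h5
    _ = 2 ^ ((L + 2 * l + 4) * bI + (2 * l + 2) * (W / 16) + 2 * N * D + S * D) := by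
        rw [← pow_add, ← pow_add, ← pow_add]
    _ < 2 ^ (L * (W / T)) := Nat.pow_lt_pow_right (by norm_num) hmain
    _ = (2 ^ L) ^ (W / T) := pow_mul _ _ _

end Pool.Agent.Helper51.PT
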