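import Pool.Agent.Helper51.PT.Cl
import Pool.Agent.Helper51.PS.E1

/-!
# MP_175197_nt, project PT: the members which are not in `Lin` are negligible
-/

set_option autoImplicit false

namespace Pool.Agent.Helper51.PT

open Finset
open Pool.Agent.Helper51.PS (Sm Cl Lin Oth)

/-- the reciprocals, as a homomorphism -/
noncomputable def rec1 : ℕ →* ℝ where
  toFun n := (n : ℝ)⁻¹
  map_one' := by simp
  map_mul' a b := by
    push_cast
    rw [mul_inv]

open Classical in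
/-- the reciprocals of the numbers composed of primes `≤ K` are summable -/
theorem smooth_summable (K : ℕ) :
    Summable (fun s : ℕ => if 0 < s ∧ Sm K s then 1 / (s : ℝ) else 0) := by
  have h := (EulerProduct.summable_and_hasSum_smoothNumbers_prod_primesBelow_geometric
    (f := rec1) (by
      intro p hp
      show ‖((p : ℝ))⁻¹‖ < 1
      rw [norm_inv, Real.norm_natCast]
      exact inv_lt_one_of_one_lt₀ (by exact_mod_cast hp.one_lt)) (K + 1)).1
  have h2 : Summable (Set.indicator (K + 1).smoothNumbers (fun m : ℕ => ‖rec1 m‖)) :=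
    summable_subtype_iff_indicator.1 h
  refine h2.congr fun s => ?_
  have hiff : s ∈ (K + 1).smoothNumbers ↔ 0 < s ∧ Sm K s := by
    rw [Nat.mem_smoothNumbers]
    constructor
    · rintro ⟨h3, h4⟩
      refine ⟨Nat.pos_of_ne_zero h3, fun r hr hrs => ?_⟩
      have := h4 r ((Nat.mem_primeFactorsList h3).2 ⟨hr, hrs⟩)
      omega
    · rintro ⟨h3, h4⟩
      refine ⟨h3.ne', fun p hp => ?_⟩
      have h1 := (Nat.mem_primeFactorsList h3.ne').1 hp
      have := h4 p h1.1 h1.2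
      omega
  by_cases hs : s ∈ (K + 1).smoothNumbers
  · rw [Set.indicator_of_mem hs, if_pos (hiff.1 hs)]
    show ‖((s : ℝ))⁻¹‖ = 1 / (s : ℝ)
    rw [norm_inv, Real.norm_natCast, one_div]
  · rw [Set.indicator_of_notMem hs, if_neg (fun h3 => hs (hiff.2 h3))]

open Classical in
/-- the reciprocals of the prime powers which are not primes are summable -/
theorem pow_summable :
    Summable (fun m : ℕ => if m ∈ {m : ℕ | IsPrimePow m ∧ ¬ m.Prime} then 1 / (m : ℝ) else 0) := by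
  have h1 : ∀ n ∈ {m : ℕ | IsPrimePow m ∧ ¬ m.Prime},
      ∃ x, 0 < x ∧ (n = x ^ 2 ∨ n = x ^ 2 * x.minFac) :=
    fun n hn => Pool.Agent.Helper51.BR.pow_form hn.1 hn.2
  choose! g hg using h1
  refine Pool.Agent.Helper51.BP.summable_fib _ 2 g (fun p => 1 / (p : ℝ) ^ 2)
    (fun p => by positivity) (Real.summable_one_div_nat_pow.2 one_lt_two) ?_ ?_
  · intro n hn
    obtain ⟨h2, h3⟩ := hg n hn
    have h4 : g n ^ 2 ≤ n := by
      rcases h3 with h3 | h3
      · exact h3.ge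
      · conv_rhs => rw [h3]
        exact Nat.le_mul_of_pos_right _ (Nat.minFac_pos _)
    have h5 : (0:ℝ) < (g n : ℝ) ^ 2 := by positivity
    exact one_div_le_one_div_of_le h5 (by exact_mod_cast h4)
  · intro x S hS
    have h3 : S ⊆ ({x ^ 2, x ^ 2 * x.minFac} : Finset ℕ) := by
      intro n hn
      have h2 := hS n hn
      have h4 := (hg n h2.1).2
      rw [h2.2] at h4
      rw [mem_insert, mem_singleton]
      exact h4
    exact (card_le_card h3).trans card_le_two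

/-- the other members: `n = s * m`, `m` a prime power which is not a prime, `s` composed of
primes `≤ K` -/
theorem oth_split {A : Set ℕ} {K n : ℕ} (hn0 : 0 < n) (hn : n ∈ Oth A K) (h2 : ¬ Two K n) :
    ∃ s m : ℕ, n = s * m ∧ (0 < s ∧ Sm K s) ∧ IsPrimePow m ∧ ¬ m.Prime := by
  obtain ⟨hA, hL, q, hq, hqn, hKq⟩ := hn
  obtain ⟨j, s, hqs, hns⟩ := Nat.exists_eq_pow_mul_and_not_dvd hn0.ne' q hq.ne_one
  have hs0 : 0 < s := Nat.pos_of_ne_zero fun h => by
    rw [h, mul_zero] at hns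
    omega
  have hsm : Sm K s := by
    intro r hr hrs
    by_contra hcon
    push Not at hcon
    refine h2 ⟨q, r, hq, hr, ?_, hKq, hcon, hqn, ?_⟩
    · rintro rfl
      exact hqs hrs
    · rw [hns]
      exact dvd_mul_of_dvd_right hrs _
  have hj0 : j ≠ 0 := by
    rintro rfl
    rw [pow_zero, one_mul] at hns
    exact hqs (hns ▸ hqn)
  have hj1 : j ≠ 1 := by
    rintro rfl
    rw [pow_one, mul_comm] at hns
    exact hL ⟨hA, s, q, hns, hs0, hsm, hq, hKq⟩
  refine ⟨s, q ^ j, by rw [hns, mul_comm], ⟨hs0, hsm⟩, hq.isPrimePow.pow hj0, ?_⟩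
  intro h
  exact hj1 (Nat.Prime.eq_one_of_pow h)

/-- PT-E1. `Oth`: (i) `Two K n`: least prime factor `p > K`, `p ^ 2 ≤ n`, at most `K` of them for each
`p`; (ii) `n = s * p ^ j`, `j ≥ 2`, `s` composed of primes `≤ K`: double sum, `∑ 1 / s` over these `s`
is bounded (Euler product). -/
theorem oth_summable (A : Set ℕ) (K : ℕ) (hK : 2 ≤ K) (h0 : ∀ n ∈ A, 0 < n)
    (hmult : ∀ p : ℕ, p.Prime → K < p → ∀ S : Finset ℕ,
      (∀ n ∈ S, n ∈ A ∧ p ∣ n ∧ Two K n) → S.card ≤ K)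
    [DecidablePred (· ∈ Oth A K)] :
    Summable (fun n : ℕ => if n ∈ Oth A K then 1 / (n : ℝ) else 0) := by
  classical
  have hnn : ∀ (c : Prop) (_ : Decidable c) (p : ℕ), (0:ℝ) ≤ if c then 1 / (p : ℝ) else 0 := by
    intro c _ p
    split_ifs
    · positivity
    · exact le_rfl
  obtain ⟨C₂, hC₂⟩ : ∃ C₂ : Set ℕ, ∀ n, n ∈ C₂ ↔ n ∈ Oth A K ∧ Two K n :=
    ⟨{n | n ∈ Oth A K ∧ Two K n}, fun _ => Iff.rfl⟩
  have hC₂s : Summable (fun n : ℕ => if n ∈ C₂ then 1 / (n : ℝ) else 0) := by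
    have h1 : ∀ n ∈ C₂, ∃ p : ℕ, p.Prime ∧ K < p ∧ p ∣ n ∧ p ^ 2 ≤ n :=
      fun n hn => Pool.Agent.Helper51.PS.oth_prime (h0 n ((hC₂ n).1 hn).1.1) ((hC₂ n).1 hn).1
    choose! g hg using h1
    refine Pool.Agent.Helper51.BP.summable_fib C₂ K g (fun p => 1 / (p : ℝ) ^ 2)
      (fun p => by positivity) (Real.summable_one_div_nat_pow.2 one_lt_two) ?_ ?_
    · intro n hn
      obtain ⟨h2, -, -, h3⟩ := hg n hn
      have h4 : (0:ℝ) < (g n : ℝ) ^ 2 := by
        have := h2.pos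
        positivity
      exact one_div_le_one_div_of_le h4 (by exact_mod_cast h3)
    · intro p S hS
      rcases S.eq_empty_or_nonempty with rfl | ⟨n₀, hn₀⟩
      · simp
      · have h2 := hS n₀ hn₀
        obtain ⟨h3, h4, -, -⟩ := hg n₀ h2.1
        rw [h2.2] at h3 h4
        refine hmult p h3 h4 S fun n hn => ?_
        have h5 := hS n hn
        refine ⟨((hC₂ n).1 h5.1).1.1, ?_, ((hC₂ n).1 h5.1).2⟩
        have h6 := (hg n h5.1).2.2.1
        rwa [h5.2] at h6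
  obtain ⟨C₃, hC₃⟩ : ∃ C₃ : Set ℕ, ∀ n, n ∈ C₃ ↔ n ∈ Oth A K ∧ ¬ Two K n :=
    ⟨{n | n ∈ Oth A K ∧ ¬ Two K n}, fun _ => Iff.rfl⟩
  have hC₃s : Summable (fun n : ℕ => if n ∈ C₃ then 1 / (n : ℝ) else 0) := by
    have h1 : ∀ n : C₃, ∃ x : ℕ × ℕ, (n : ℕ) = x.1 * x.2 ∧ (0 < x.1 ∧ Sm K x.1) ∧
        x.2 ∈ {m : ℕ | IsPrimePow m ∧ ¬ m.Prime} := by
      rintro ⟨n, hn⟩
      obtain ⟨s, m, h3, h4, h5⟩ := oth_split (h0 n ((hC₃ n).1 hn).1.1) ((hC₃ n).1 hn).1
        ((hC₃ n).1 hn).2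
      exact ⟨(s, m), h3, h4, h5⟩
    choose e he using h1
    have hinj : Function.Injective e := by
      intro a b hab
      apply Subtype.ext
      rw [(he a).1, (he b).1, hab]
    obtain ⟨F, hF, hF0, hF1⟩ : ∃ F : ℕ → ℝ, Summable F ∧ 0 ≤ F ∧
        ∀ s, 0 < s ∧ Sm K s → F s = 1 / (s : ℝ) :=
      ⟨_, smooth_summable K, fun s => hnn _ _ s, fun s hs => if_pos hs⟩
    obtain ⟨W, hW, hW0, hW1⟩ : ∃ W : ℕ → ℝ, Summable W ∧ 0 ≤ W ∧
        ∀ m ∈ {m : ℕ | IsPrimePow m ∧ ¬ m.Prime}, W m = 1 / (m : ℝ) :=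
      ⟨_, pow_summable, fun s => hnn _ _ s, fun m hm => if_pos hm⟩
    have h3 := (hF.mul_of_nonneg hW hF0 hW0).comp_injective hinj
    have h4 : Summable (fun n : C₃ => 1 / ((n : ℕ) : ℝ)) := by
      refine h3.congr fun n => ?_
      obtain ⟨h5, h6, h7⟩ := he n
      have h8 : ((n : ℕ) : ℝ) = ((e n).1 : ℝ) * ((e n).2 : ℝ) := by exact_mod_cast h5
      rw [Function.comp_apply, hF1 _ h6, hW1 _ h7, h8, one_div_mul_one_div]
    have h5 : Summable (Set.indicator C₃ (fun n : ℕ => 1 / (n : ℝ))) :=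
      (summable_subtype_iff_indicator (f := fun n : ℕ => 1 / (n : ℝ)) (s := C₃)).1 h4
    refine h5.congr fun n => ?_
    rw [Set.indicator_apply]
  refine Summable.of_nonneg_of_le (fun p => hnn _ _ p) ?_ (hC₂s.add hC₃s)
  intro n
  have a2 := hnn (n ∈ C₂) inferInstance n
  have a3 := hnn (n ∈ C₃) inferInstance n
  by_cases hn : n ∈ Oth A K
  · rw [if_pos hn]
    by_cases hpp : Two K n
    · rw [if_pos ((hC₂ n).2 ⟨hn, hpp⟩)]
      linarith
    · rw [if_pos ((hC₃ n).2 ⟨hn, hpp⟩)]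
      linarith
  · rw [if_neg hn]
    linarith

end Pool.Agent.Helper51.PT
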