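import Pool.Agent.Helper51.PT.Cl
import Pool.Agent.Helper37.PTE.Lin

set_option autoImplicit false

namespace Pool.Agent.Helper51.PT

open Finset
open Pool.Agent.Helper51.PS (Sm Cl Lin Oth)

open Classical in
/-- PT-E2. As `Helper37.PSE.lin_bound`, but the number of the members `s * p` for one prime `p` is not
bounded: `∑ 1 / (s * p)` over them is at most `(1 / p) * ∑_{s composed of primes ≤ K, s ≥ s(p)} 1 / s ≤
C * s(p) ^ (-1/2) / p`, because `∑ s ^ (-1/2)` over these `s` converges; and the exponent is `κ`. -/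
theorem lin_bound (A : Set ℕ) (K : ℕ) (hK : 2 ≤ K) (h0 : ∀ n ∈ A, 0 < n) (κ : ℕ) (hκ : 1 ≤ κ)
    (L₀ : ℕ)
    (hfew : ∀ l ≥ L₀, ∀ s : ℕ, 0 < s → Sm K s → (4 * K.factorial * s) ^ κ ≤ 2 ^ l →
      ∀ P : Finset ℕ, (∀ p ∈ P, p ∈ Cl A K s ∧ 2 ^ (2 ^ (l - 2)) < p ∧
        p ≤ 2 ^ (2 ^ (2 ^ (l - 2)))) → P.card < 2 * 2 ^ (2 ^ (l - 2))) :
    ∃ C ε : ℝ, 0 < C ∧ 0 < ε ∧ ε < 1 ∧ ∀ x : ℕ, 16 ≤ x →
      ∑ n ∈ (Icc 1 x).filter (fun n => n ∈ Lin A K), 1 / (n : ℝ) ≤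
        C * (Real.log (Real.log x)) ^ (1 - ε) := by
  exact Pool.Agent.Helper37.PTE.lin_bound A K hK h0 κ hκ L₀ hfew

end Pool.Agent.Helper51.PT
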